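import Pool.Agent.Helper68.T3.GoalsT

/-!
# Project T3 (MP_a41896_nt), packet PG-GLOB3: the global inequality of P3
-/

set_option autoImplicit false

open MvPolynomial

namespace Pool.Agent.Helper37.T3

open WeierstrassCurve Height Height.AdmissibleAbsValues
open Pool.Agent.Helper29.BL Pool.Agent.Helper92.Ru Pool.Agent.Helper42.SG
open Pool.Agent.Helper68.VN Pool.Agent.Helper68.T3
open Pool.Agent.Helper5.UN (cH)
open Pool.Agent.Helper60.HC (S_CHB rhs)

theorem logR6 {s B P1 P2 P3 P4 : ℝ} (hs : 0 < s) (hB : 0 < B) (h1 : 0 < P1) (h2 : 0 < P2)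
    (h3 : 0 < P3) (h4 : 0 < P4) : Real.log (s * B * P1 * P2 * P3 * P4)
      = Real.log s + Real.log B + Real.log P1 + Real.log P2 + Real.log P3 + Real.log P4 := by
  rw [Real.log_mul (by positivity) h4.ne', Real.log_mul (by positivity) h3.ne',
    Real.log_mul (by positivity) h2.ne', Real.log_mul (by positivity) h1.ne',
    Real.log_mul hs.ne' hB.ne']

theorem split2 {σ : Type} [Fintype σ] (F : Fin 2 × σ → ℝ) :
    ∑ h, F h = ∑ i, F (0, i) + ∑ i, F (1, i) := by
  rw [Fintype.sum_prod_type, Fin.sum_univ_two]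

theorem t_GLOB3 (hHHO : HHO) (hCHB : S_CHB) : GLOB3 := by
  intro K _ _ σ _ _ J _ D f hdeg M k0 E Bt B' hBt hB'
  obtain ⟨c0, -, hCH⟩ := hCHB K σ D J f hdeg
  have hBt0 : 0 ≤ PS (fun v => Real.log (Bt v)) :=
    PS_nonneg hBt.fin fun v => Real.log_nonneg (hBt.one_le v)
  have hB'0 : 0 ≤ PS (fun v => Real.log (B' v)) :=
    PS_nonneg hB'.fin fun v => Real.log_nonneg (hB'.one_le v)
  have hfr : (0 : ℝ) ≤ (Module.finrank ℚ K : ℝ) := Nat.cast_nonneg _
  refine ⟨PS (fun v => Real.log (Bt v)) + PS (fun v => Real.log (B' v)) + Module.finrank ℚ K,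
    by positivity, ?_⟩
  intro e ι _ c A ξ ψ x0 g i' lo α dl hc hA hint hhs hdl hlo hFS hex hdlt hloc
  have hrho : FS (fun v => Real.log (rho D f v (ξ 0))) := (hCH (ξ 0) hex).2.1
  have hrhoP : PS (fun v => Real.log (rho D f v (ξ 0))) = - cH D f (ξ 0) :=
    (hCH (ξ 0) hex).2.2.1
  have hrho0 : ∀ v, 0 < rho D f v (ξ 0) := fun v => ((hCH (ξ 0) hex).2.2.2 v).1
  -- the coefficients of `g`
  have hg0 : g ≠ 0 := by
    rintro rfl
    exact hdlt (by simp [dlt])
  have hgc : (fun s : g.support => coeff s.1 g) ≠ 0 := by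
    intro h
    obtain ⟨s, hs⟩ := MvPolynomial.ne_zero_iff.1 hg0
    exact hs (congrFun h ⟨s, MvPolynomial.mem_support_iff.2 hs⟩)
  have hgs : ∀ v : AbsoluteValue K ℝ, 0 < gsup v g := fun v => iSup_abv_pos v hgc
  have fg : FS (fun v : AbsoluteValue K ℝ => Real.log (gsup v g)) := FS_log_iSup hgc
  have pg : PS (fun v : AbsoluteValue K ℝ => Real.log (gsup v g)) = Real.log (PH g) :=
    PS_log_iSup hgc
  have fd : FS (fun v : AbsoluteValue K ℝ => Real.log (v (dlt g i' (ξ 1) (ψ 1)))) := FS_log hdlt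
  have pd : PS (fun v : AbsoluteValue K ℝ => Real.log (v (dlt g i' (ξ 1) (ψ 1)))) = 0 :=
    PS_log hdlt
  -- the summands
  have f0 : FS (fun v : AbsoluteValue K ℝ => Real.log (v dl)) := FS_log hdl
  have g1 : FS (fun v : AbsoluteValue K ℝ => Real.log (⨆ i, v (c i))) := FS_log_iSup hc
  have g2 : FS (fun v : AbsoluteValue K ℝ => ((sqB e : ℕ) : ℝ) * Real.log (Bt v)) :=
    hBt.fin.const_mul _
  have g3a : ∀ j i, FS (fun v : AbsoluteValue K ℝ =>
      (M : ℝ) * Real.log (max (v (lo j i).1) (v (lo j i).2)) +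
        ((4 : ℝ) ^ e j + 2) * Real.log (Mv v (ξ j i))) :=
    fun j i => ((hFS j i).const_mul _).add ((FS_log_Mv _).const_mul _)
  have g3b : ∀ j, FS (fun v : AbsoluteValue K ℝ => ∑ i : σ,
      ((M : ℝ) * Real.log (max (v (lo j i).1) (v (lo j i).2)) +
        ((4 : ℝ) ^ e j + 2) * Real.log (Mv v (ξ j i)))) :=
    fun j => FS.sum _ fun i _ => g3a j i
  have g3 : FS (fun v : AbsoluteValue K ℝ => ∑ j : Fin 2, ∑ i : σ,
      ((M : ℝ) * Real.log (max (v (lo j i).1) (v (lo j i).2)) +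
        ((4 : ℝ) ^ e j + 2) * Real.log (Mv v (ξ j i)))) :=
    FS.sum _ fun j _ => g3b j
  have g4 : FS (fun v : AbsoluteValue K ℝ =>
      ((k0 : ℝ) * 4 ^ e 0) * Real.log (rho D f v (ξ 0))) := hrho.const_mul _
  have g5a : ∀ i, FS (fun v : AbsoluteValue K ℝ => Real.log (Mv v (x0 i))) :=
    fun i => FS_log_Mv _
  have g5 : FS (fun v : AbsoluteValue K ℝ => ∑ i : σ, Real.log (Mv v (x0 i))) :=
    FS.sum _ fun i _ => g5a i
  have g6b : ∀ i, FS (fun v : AbsoluteValue K ℝ =>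
      (Real.log (B' v) + 2 * Real.log (Mv v (ξ 0 i))) +
        (-1) * Real.log (rho D f v (ξ 0))) :=
    fun i => (hB'.fin.add ((FS_log_Mv _).const_mul _)).add (hrho.const_mul _)
  have g6a : ∀ i, FS (fun v : AbsoluteValue K ℝ =>
      (α (0, i) : ℝ) * ((Real.log (B' v) + 2 * Real.log (Mv v (ξ 0 i))) +
        (-1) * Real.log (rho D f v (ξ 0)))) := fun i => (g6b i).const_mul _
  have g6 : FS (fun v : AbsoluteValue K ℝ => ∑ i : σ,
      (α (0, i) : ℝ) * ((Real.log (B' v) + 2 * Real.log (Mv v (ξ 0 i))) +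
        (-1) * Real.log (rho D f v (ξ 0)))) := FS.sum _ fun i _ => g6a i
  have gM : FS (fun v : AbsoluteValue K ℝ => ∑ i : σ, Real.log (Mv v (ξ 1 i))) :=
    FS.sum _ fun i _ => FS_log_Mv _
  have g7b : FS (fun v : AbsoluteValue K ℝ =>
      ((Real.log (B' v) + 2 * Real.log (gsup v g)) +
        (E : ℝ) * ∑ i' : σ, Real.log (Mv v (ξ 1 i'))) +
        (-2) * Real.log (v (dlt g i' (ξ 1) (ψ 1)))) :=
    ((hB'.fin.add (fg.const_mul _)).add (gM.const_mul _)).add (fd.const_mul _)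
  have g7a : ∀ i, FS (fun v : AbsoluteValue K ℝ =>
      (α (1, i) : ℝ) * (((Real.log (B' v) + 2 * Real.log (gsup v g)) +
        (E : ℝ) * ∑ i' : σ, Real.log (Mv v (ξ 1 i'))) +
        (-2) * Real.log (v (dlt g i' (ξ 1) (ψ 1))))) := fun i => g7b.const_mul _
  have g7 : FS (fun v : AbsoluteValue K ℝ => ∑ i : σ,
      (α (1, i) : ℝ) * (((Real.log (B' v) + 2 * Real.log (gsup v g)) +
        (E : ℝ) * ∑ i' : σ, Real.log (Mv v (ξ 1 i'))) +
        (-2) * Real.log (v (dlt g i' (ξ 1) (ψ 1))))) := FS.sum _ fun i _ => g7a i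
  have hmain : PS (fun v : AbsoluteValue K ℝ => Real.log (v dl)) ≤
      PS (fun v : AbsoluteValue K ℝ => (((((Real.log (⨆ i, v (c i)) +
        ((sqB e : ℕ) : ℝ) * Real.log (Bt v)) +
        ∑ j : Fin 2, ∑ i : σ, ((M : ℝ) * Real.log (max (v (lo j i).1) (v (lo j i).2)) +
          ((4 : ℝ) ^ e j + 2) * Real.log (Mv v (ξ j i)))) +
        ((k0 : ℝ) * 4 ^ e 0) * Real.log (rho D f v (ξ 0))) +
        ∑ i : σ, Real.log (Mv v (x0 i))) +
        ∑ i : σ, (α (0, i) : ℝ) * ((Real.log (B' v) + 2 * Real.log (Mv v (ξ 0 i))) +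
          (-1) * Real.log (rho D f v (ξ 0)))) +
        ∑ i : σ, (α (1, i) : ℝ) * (((Real.log (B' v) + 2 * Real.log (gsup v g)) +
          (E : ℝ) * ∑ i' : σ, Real.log (Mv v (ξ 1 i'))) +
          (-2) * Real.log (v (dlt g i' (ξ 1) (ψ 1))))) := by
    refine PS_mono f0 ((((((g1.add g2).add g3).add g4).add g5).add g6).add g7) ?_
    intro v
    have hvδ : 0 < v dl := v.pos hdl
    have hs : 0 < ⨆ i, v (c i) := iSup_abv_pos v hc
    have hB1 : 0 < Bt v := lt_of_lt_of_le one_pos (hBt.one_le v)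
    have hB2 : 0 < B' v := lt_of_lt_of_le one_pos (hB'.one_le v)
    have hmx : ∀ j i, 0 < max (v (lo j i).1) (v (lo j i).2) := by
      intro j i
      rcases hlo j i with k | k
      · exact lt_max_of_lt_left (v.pos k)
      · exact lt_max_of_lt_right (v.pos k)
    have hM : ∀ a : K, 0 < Mv v a := Mv_pos v
    have hvd : 0 < v (dlt g i' (ξ 1) (ψ 1)) := v.pos hdlt
    have hPM : 0 < ∏ i, Mv v (ξ 1 i) := Finset.prod_pos fun i _ => hM _
    have p1 : ∀ j i, 0 < (max (v (lo j i).1) (v (lo j i).2)) ^ M *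
        Mv v (ξ j i) ^ (4 ^ e j + 2) :=
      fun j i => mul_pos (pow_pos (hmx j i) _) (pow_pos (hM _) _)
    have p1' : ∀ j, 0 < ∏ i, (max (v (lo j i).1) (v (lo j i).2)) ^ M *
        Mv v (ξ j i) ^ (4 ^ e j + 2) := fun j => Finset.prod_pos fun i _ => p1 j i
    have p2 : 0 < rho D f v (ξ 0) ^ (k0 * 4 ^ e 0) := pow_pos (hrho0 v) _
    have hrad0 : ∀ i : σ, 1 / rad3 D f E g i' (B' v) v ξ ψ (0, i) =
        B' v * Mv v (ξ 0 i) ^ 2 / rho D f v (ξ 0) := by
      intro i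
      unfold rad3
      rw [if_pos rfl, one_div_div]
    have hrad1 : ∀ i : σ, 1 / rad3 D f E g i' (B' v) v ξ ψ (1, i) =
        B' v * gsup v g ^ 2 * (∏ i, Mv v (ξ 1 i)) ^ E / v (dlt g i' (ξ 1) (ψ 1)) ^ 2 := by
      intro i
      unfold rad3
      rw [if_neg (by simp), one_div_div]
    have q0 : ∀ i : σ, 0 < 1 / rad3 D f E g i' (B' v) v ξ ψ (0, i) := by
      intro i
      rw [hrad0 i]
      exact div_pos (mul_pos hB2 (pow_pos (hM _) _)) (hrho0 v)
    have q1 : ∀ i : σ, 0 < 1 / rad3 D f E g i' (B' v) v ξ ψ (1, i) := by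
      intro i
      rw [hrad1 i]
      exact div_pos (mul_pos (mul_pos hB2 (pow_pos (hgs v) _)) (pow_pos hPM _))
        (pow_pos hvd _)
    have p4' : ∀ h : Fin 2 × σ, 0 < 1 / rad3 D f E g i' (B' v) v ξ ψ h := by
      rintro ⟨j, i⟩
      have hj : j = 0 ∨ j = 1 := by fin_cases j <;> simp
      rcases hj with rfl | rfl
      · exact q0 i
      · exact q1 i
    have p4 : ∀ h : Fin 2 × σ, 0 < (1 / rad3 D f E g i' (B' v) v ξ ψ h) ^ α h :=
      fun h => pow_pos (p4' h) _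
    have hle : ∀ i, v (c i) ≤ ⨆ i, v (c i) := fun i =>
      le_ciSup (Set.finite_range fun i => v (c i)).bddAbove i
    have h1 := Real.log_le_log hvδ (hloc v (⨆ i, v (c i)) hle)
    rw [logR6 hs (pow_pos hB1 _) (Finset.prod_pos fun j _ => p1' j)
      p2 (Finset.prod_pos fun i _ => hM (x0 i))
      (Finset.prod_pos fun h _ => p4 h),
      Real.log_prod (fun j _ => (p1' j).ne'),
      Real.log_prod (fun i _ => (hM (x0 i)).ne'), Real.log_prod (fun h _ => (p4 h).ne'),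
      Real.log_pow, Real.log_pow, split2] at h1
    have e1 : ∑ j : Fin 2, Real.log (∏ i, (max (v (lo j i).1) (v (lo j i).2)) ^ M *
        Mv v (ξ j i) ^ (4 ^ e j + 2))
        = ∑ j : Fin 2, ∑ i : σ, ((M : ℝ) * Real.log (max (v (lo j i).1) (v (lo j i).2)) +
          ((4 : ℝ) ^ e j + 2) * Real.log (Mv v (ξ j i))) := by
      refine Finset.sum_congr rfl fun j _ => ?_
      rw [Real.log_prod (fun i _ => (p1 j i).ne')]
      refine Finset.sum_congr rfl fun i _ => ?_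
      rw [Real.log_mul (pow_pos (hmx j i) _).ne' (pow_pos (hM _) _).ne', Real.log_pow,
        Real.log_pow]
      push_cast
      ring
    have e4 : ∑ i : σ, Real.log ((1 / rad3 D f E g i' (B' v) v ξ ψ (0, i)) ^ α (0, i))
        = ∑ i : σ, (α (0, i) : ℝ) *
          ((Real.log (B' v) + 2 * Real.log (Mv v (ξ 0 i))) +
          (-1) * Real.log (rho D f v (ξ 0))) := by
      refine Finset.sum_congr rfl fun i _ => ?_
      rw [Real.log_pow, hrad0 i, Real.log_div (mul_pos hB2 (pow_pos (hM _) _)).ne'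
        (hrho0 v).ne', Real.log_mul hB2.ne' (pow_pos (hM _) _).ne', Real.log_pow]
      push_cast
      ring
    have e5 : ∑ i : σ, Real.log ((1 / rad3 D f E g i' (B' v) v ξ ψ (1, i)) ^ α (1, i))
        = ∑ i : σ, (α (1, i) : ℝ) * (((Real.log (B' v) + 2 * Real.log (gsup v g)) +
          (E : ℝ) * ∑ i' : σ, Real.log (Mv v (ξ 1 i'))) +
          (-2) * Real.log (v (dlt g i' (ξ 1) (ψ 1)))) := by
      refine Finset.sum_congr rfl fun i _ => ?_
      rw [Real.log_pow, hrad1 i, Real.log_div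
        (mul_pos (mul_pos hB2 (pow_pos (hgs v) _)) (pow_pos hPM _)).ne' (pow_pos hvd _).ne',
        Real.log_mul (mul_pos hB2 (pow_pos (hgs v) _)).ne' (pow_pos hPM _).ne',
        Real.log_mul hB2.ne' (pow_pos (hgs v) _).ne', Real.log_pow, Real.log_pow, Real.log_pow,
        Real.log_prod (fun i _ => (hM (ξ 1 i)).ne')]
      push_cast
      ring
    rw [e1, e4, e5] at h1
    push_cast at h1 ⊢
    linarith
  rw [PS_log hdl, PS_add (((((g1.add g2).add g3).add g4).add g5).add g6) g7,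
    PS_add ((((g1.add g2).add g3).add g4).add g5) g6,
    PS_add (((g1.add g2).add g3).add g4) g5, PS_add ((g1.add g2).add g3) g4,
    PS_add (g1.add g2) g3, PS_add g1 g2, PS_const_mul, PS_log_iSup hc,
    PS_sum _ fun j _ => g3b j, PS_const_mul, PS_sum _ fun i _ => g5a i,
    PS_sum _ fun i _ => g6a i, PS_sum _ fun i _ => g7a i] at hmain
  have s3 : ∑ j : Fin 2, PS (fun v : AbsoluteValue K ℝ => ∑ i : σ,
      ((M : ℝ) * Real.log (max (v (lo j i).1) (v (lo j i).2)) +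
        ((4 : ℝ) ^ e j + 2) * Real.log (Mv v (ξ j i))))
      = ∑ j : Fin 2, ∑ i : σ,
        (M * PS (fun v => Real.log (max (v (lo j i).1) (v (lo j i).2))) +
          ((4 : ℝ) ^ e j + 2) * logHeight₁ (ξ j i)) := by
    refine Finset.sum_congr rfl fun j _ => ?_
    rw [PS_sum _ fun i _ => g3a j i]
    refine Finset.sum_congr rfl fun i _ => ?_
    rw [PS_add ((hFS j i).const_mul _) ((FS_log_Mv _).const_mul _), PS_const_mul,
      PS_const_mul, PS_log_Mv]
  have s5 : ∑ i : σ, PS (fun v : AbsoluteValue K ℝ => Real.log (Mv v (x0 i)))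
      = ∑ i : σ, logHeight₁ (x0 i) :=
    Finset.sum_congr rfl fun i _ => PS_log_Mv _
  have s6 : ∑ i : σ, PS (fun v : AbsoluteValue K ℝ =>
      (α (0, i) : ℝ) * ((Real.log (B' v) + 2 * Real.log (Mv v (ξ 0 i))) +
        (-1) * Real.log (rho D f v (ξ 0))))
      ≤ ∑ i : σ, (α (0, i) : ℝ) * ((PS (fun v => Real.log (Bt v)) +
        PS (fun v => Real.log (B' v)) + Module.finrank ℚ K) +
        2 * logHeight₁ (ξ 0 i) + cH D f (ξ 0)) := by
    refine Finset.sum_le_sum fun i _ => ?_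
    rw [PS_const_mul, PS_add (hB'.fin.add ((FS_log_Mv _).const_mul _)) (hrho.const_mul _),
      PS_add hB'.fin ((FS_log_Mv _).const_mul _), PS_const_mul, PS_const_mul, PS_log_Mv, hrhoP]
    refine mul_le_mul_of_nonneg_left ?_ (Nat.cast_nonneg _)
    linarith
  have s7 : ∑ i : σ, PS (fun v : AbsoluteValue K ℝ =>
      (α (1, i) : ℝ) * (((Real.log (B' v) + 2 * Real.log (gsup v g)) +
        (E : ℝ) * ∑ i' : σ, Real.log (Mv v (ξ 1 i'))) +
        (-2) * Real.log (v (dlt g i' (ξ 1) (ψ 1)))))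
      ≤ ∑ i : σ, (α (1, i) : ℝ) * ((PS (fun v => Real.log (Bt v)) +
        PS (fun v => Real.log (B' v)) + Module.finrank ℚ K) +
        2 * Real.log (PH g) + E * ∑ i, logHeight₁ (ξ 1 i)) := by
    refine Finset.sum_le_sum fun i _ => ?_
    have hsM : PS (fun v : AbsoluteValue K ℝ => ∑ i' : σ, Real.log (Mv v (ξ 1 i')))
        = ∑ i', logHeight₁ (ξ 1 i') := by
      rw [PS_sum _ fun i _ => FS_log_Mv (ξ 1 i)]
      exact Finset.sum_congr rfl fun i _ => PS_log_Mv _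
    rw [PS_const_mul, PS_add ((hB'.fin.add (fg.const_mul _)).add (gM.const_mul _))
      (fd.const_mul _), PS_add (hB'.fin.add (fg.const_mul _)) (gM.const_mul _),
      PS_add hB'.fin (fg.const_mul _), PS_const_mul, PS_const_mul, PS_const_mul, pg, pd, hsM]
    refine mul_le_mul_of_nonneg_left ?_ (Nat.cast_nonneg _)
    linarith
  rw [s3, s5, hrhoP] at hmain
  have hc1 : logHeight c ≤ Module.finrank ℚ K * A := hHHO K ι c A hc hA hint hhs
  have hsq : (0 : ℝ) ≤ ((sqB e : ℕ) : ℝ) := Nat.cast_nonneg _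
  have t1 : (Module.finrank ℚ K : ℝ) * A + ((sqB e : ℕ) : ℝ) * PS (fun v => Real.log (Bt v))
      ≤ (PS (fun v => Real.log (Bt v)) + PS (fun v => Real.log (B' v)) + Module.finrank ℚ K) *
        (((sqB e : ℕ) : ℝ) + A) := by
    nlinarith [mul_nonneg hBt0 hA, mul_nonneg hB'0 hsq, mul_nonneg hB'0 hA,
      mul_nonneg hfr hsq]
  have t2 : (k0 : ℝ) * 4 ^ e 0 * -cH D f (ξ 0) = -((k0 : ℝ) * 4 ^ e 0 * cH D f (ξ 0)) := by
    ring
  linarith

end Pool.Agent.Helper37.T3
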